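import Pool.Agent.Helper65.NW.Goals

/-!
# Project NW, packet INP: the names of the cells which are read
-/

namespace Pool.Agent.Helper80.NW

open Pool.Agent.Helper65.LinSpace Pool.Agent.Helper78.Mpc Pool.Agent.Helper28.Ram
open Pool.Agent.Helper65.NW

theorem num_lt_len (v : List Bool) : num v < 2 ^ (v.length + 1) := by
  have h := Nat.lt_pow_succ_log_self (b := 2) (by norm_num) (num v)
  rwa [log_num] at h

theorem wd_num (p : List Bool) : Prm.wd (num p) = 2 ^ (p.length + 1) := by
  unfold Prm.wd
  rw [log_num, pow_succ]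
  ring

theorem length_hd {w p z : List Bool} {k Z t : ℕ} (hz : z.length = p.length) (hp : p.length ≤ Z)
    (hw : w.length < 2 ^ k) (ht : t < 2 ^ k) :
    (hd w.length t p z).length ≤ 4 * k + 4 * Z + 4 := by
  unfold hd
  simp only [List.length_append, length_sd]
  have h1 := length_bits hw
  have h2 := length_bits ht
  omega

theorem hdN_num {w p z : List Bool} {P : Prm} (hx : P.x = num w) (t : ℕ) :
    P.hdN t (num p) (num z) = num (hd w.length t p z) := by
  unfold Prm.hdN hd
  rw [hx, log_num, bitsN_eq, bitsN_eq, sdN_num, sdN_num, sdN_num, sdN_num, catN_num, catN_num,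
    catN_num]

/-- Packet INP. -/
theorem inp : Pool.Agent.Helper65.NW.INP_stmt := by
  intro A
  obtain ⟨eN, c, hf⟩ := fnN_spec A.nb_lin
  refine ⟨eN, c, ?_⟩
  intro w p z P k t i hN hx hz hp hZ hw ht hi hΛ hβ hM
  have hnb : P.nbN (num p) t (num z) i =
      if (A.nb (hd w.length t p z ++ i.bits)).length ≤ P.Z then
        num (A.nb (hd w.length t p z ++ i.bits)) else 0 := by
    unfold Prm.nbN
    rw [hN, hdN_num hx, bitsN_eq, catN_num]
    have hl : (hd w.length t p z ++ i.bits).length ≤ 9 * k + 4 := by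
      rw [List.length_append]
      have h1 := length_hd hz hp hw ht
      have h2 := length_bits hi
      omega
    refine hf _ _ _ _ _ ?_ ?_ hM
    · exact le_trans (Nat.mul_le_mul_left c (by omega)) hΛ
    · omega
  have hmodz : num z % Prm.wd (num p) = num z := by
    rw [wd_num, ← hz]
    exact Nat.mod_eq_of_lt (num_lt_len z)
  unfold Prm.inpN Net.inp
  rw [hnb]
  by_cases h : (A.nb (hd w.length t p z ++ i.bits)).length = p.length
  · rw [if_pos h, if_pos (by omega)]
    have h1 : lt01 0 (num (A.nb (hd w.length t p z ++ i.bits))) *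
        eq01 (Nat.log 2 (num (A.nb (hd w.length t p z ++ i.bits)))) (Nat.log 2 (num p)) ≠ 0 := by
      rw [log_num, log_num, h, lt01, if_pos (num_pos _), eq01, if_pos rfl]
      norm_num
    rw [ifz_ne h1, wd_num, ← h]
    exact Nat.mod_eq_of_lt (num_lt_len _)
  · rw [if_neg h]
    by_cases h2 : (A.nb (hd w.length t p z ++ i.bits)).length ≤ P.Z
    · rw [if_pos h2, log_num, log_num, eq01, if_neg h, mul_zero, ifz_zero, hmodz]
    · rw [if_neg h2]
      have h3 : lt01 0 0 = 0 := rfl
      rw [h3, zero_mul, ifz_zero, hmodz]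

end Pool.Agent.Helper80.NW
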